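import Mathlib

/-!
# The countable powers of the Arens space `S₂` and of the sequential fan `S_ω` are not `k_ℝ`-spaces

Let `p(n, k)` be the isolated points of `S₂` or `S_ω` (`n` is the number of the sequence).  The
clopen sets `U_{n,k} = {x : x_0 = p(n,k), x_{n+1} = p(k,0)}` form a family of which every compact
set meets only finitely many members, while every neighbourhood of the point `(∞, ∞, …)` meets
some of them.  So the indicator function of their union is continuous on compact sets and not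
continuous.
-/

set_option autoImplicit false

namespace Pool.Agent.Results.MP_d55beb_gt.NotKR

open Set Topology

/-- `X` is a `k_ℝ`-space: a function `f : X → ℝ` whose restriction to every compact subset is
continuous is continuous. -/
def IsKR (X : Type) [TopologicalSpace X] : Prop :=
  ∀ f : X → ℝ, (∀ K : Set X, IsCompact K → ContinuousOn f K) → Continuous f

/-- The sequential fan `S_ω`: `none` is the point `∞`, the other points are the pairs `(n, m)`. -/
def Fan : Type := Option (ℕ × ℕ)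

/-- The topology of the fan: the points `(n, m)` are isolated, and a set containing `∞` is open iff
it contains `{∞} ∪ {(n, m) : m ≥ f(n)}` for some `f`. -/
instance : TopologicalSpace Fan where
  IsOpen U := (none : Option (ℕ × ℕ)) ∈ U →
    ∃ f : ℕ → ℕ, ∀ n m, f n ≤ m → (some (n, m) : Option (ℕ × ℕ)) ∈ U
  isOpen_univ := fun _ => ⟨fun _ => 0, fun _ _ _ => trivial⟩
  isOpen_inter := by
    rintro U V hU hV ⟨h1, h2⟩
    obtain ⟨f, hf⟩ := hU h1
    obtain ⟨g, hg⟩ := hV h2
    exact ⟨fun n => max (f n) (g n), fun n m h =>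
      ⟨hf n m ((le_max_left _ _).trans h), hg n m ((le_max_right _ _).trans h)⟩⟩
  isOpen_sUnion := by
    rintro S hS ⟨U, hU, h⟩
    obtain ⟨f, hf⟩ := hS U hU h
    exact ⟨f, fun n m h => ⟨U, hU, hf n m h⟩⟩

theorem isOpen_fan {U : Set Fan} : IsOpen U ↔ ((none : Option (ℕ × ℕ)) ∈ U →
    ∃ f : ℕ → ℕ, ∀ n m, f n ≤ m → (some (n, m) : Option (ℕ × ℕ)) ∈ U) := Iff.rfl

/-- The points of the Arens space `S₂`: `∞`, the points `a_n` and the points `a_{n,m}`. -/
inductive Arens : Type
  | inf : Arens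
  | a : ℕ → Arens
  | b : ℕ → ℕ → Arens

/-- The topology of the Arens space: a set `U` is open iff it contains almost all `a_{n,m}`
whenever it contains `a_n`, and almost all `a_n` if it contains `∞`.  (So the basic neighbourhoods
of `a_n` are `{a_n} ∪ {a_{n,m} : m ≥ k}` and those of `∞` are `{∞}` together with basic
neighbourhoods of all `a_n`, `n ≥ k`.) -/
instance : TopologicalSpace Arens where
  IsOpen U := (∀ n, Arens.a n ∈ U → ∃ k, ∀ m, k ≤ m → Arens.b n m ∈ U) ∧
    (Arens.inf ∈ U → ∃ k, ∀ n, k ≤ n → Arens.a n ∈ U)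
  isOpen_univ := ⟨fun _ _ => ⟨0, fun _ _ => trivial⟩, fun _ => ⟨0, fun _ _ => trivial⟩⟩
  isOpen_inter := by
    rintro U V ⟨hU1, hU2⟩ ⟨hV1, hV2⟩
    refine ⟨fun n h => ?_, fun h => ?_⟩
    · obtain ⟨k, hk⟩ := hU1 n h.1
      obtain ⟨l, hl⟩ := hV1 n h.2
      exact ⟨max k l, fun m hm => ⟨hk m ((le_max_left _ _).trans hm),
        hl m ((le_max_right _ _).trans hm)⟩⟩
    · obtain ⟨k, hk⟩ := hU2 h.1
      obtain ⟨l, hl⟩ := hV2 h.2
      exact ⟨max k l, fun m hm => ⟨hk m ((le_max_left _ _).trans hm),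
        hl m ((le_max_right _ _).trans hm)⟩⟩
  isOpen_sUnion := by
    intro S hS
    refine ⟨?_, ?_⟩
    · rintro n ⟨U, hU, h⟩
      obtain ⟨k, hk⟩ := (hS U hU).1 n h
      exact ⟨k, fun m hm => ⟨U, hU, hk m hm⟩⟩
    · rintro ⟨U, hU, h⟩
      obtain ⟨k, hk⟩ := (hS U hU).2 h
      exact ⟨k, fun m hm => ⟨U, hU, hk m hm⟩⟩

theorem isOpen_arens {U : Set Arens} : IsOpen U ↔
    ((∀ n, Arens.a n ∈ U → ∃ k, ∀ m, k ≤ m → Arens.b n m ∈ U) ∧
    (Arens.inf ∈ U → ∃ k, ∀ n, k ≤ n → Arens.a n ∈ U)) := Iff.rfl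

/-- The general argument. -/
theorem not_kR {Y : Type} [TopologicalSpace Y] (inf : Y) (p : ℕ → ℕ → Y)
    (hopen : ∀ n k, IsOpen {p n k}) (hclosed : ∀ n k, IsClosed {p n k})
    (hinj : ∀ n k n' k', p n k = p n' k' → n = n' ∧ k = k')
    (hdisc : ∀ (A : Set ℕ) (g : ℕ → ℕ), IsClosed {y | ∃ n ∈ A, y = p n (g n)})
    (hne : ∀ n k, inf ≠ p n k)
    (hacc : ∀ W : Set Y, IsOpen W → inf ∈ W → ∀ N, ∃ n, N ≤ n ∧ ∃ k, p n k ∈ W) :
    ¬ IsKR (ℕ → Y) := by
  classical
  -- compact sets meet finitely many sequences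
  have hcomp : ∀ K : Set Y, IsCompact K → {n | ∃ k, p n k ∈ K}.Finite := by
    intro K hK
    have h1 : ∀ n, ∃ k, n ∈ {n | ∃ k, p n k ∈ K} → p n k ∈ K := by
      intro n
      by_cases h : ∃ k, p n k ∈ K
      · obtain ⟨k, hk⟩ := h
        exact ⟨k, fun _ => hk⟩
      · exact ⟨0, fun h' => absurd h' h⟩
    choose g hg using h1
    set A := {n | ∃ k, p n k ∈ K} with hA
    set D := {y | ∃ n ∈ A, y = p n (g n)} with hD
    have h2 : (K ∩ D).Finite := by
      refine (hK.inter_right (hdisc A g)).finite ?_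
      rw [isDiscrete_iff_discreteTopology, discreteTopology_subtype_iff']
      rintro y ⟨-, n, hn, rfl⟩
      refine ⟨{p n (g n)}, hopen _ _, ?_⟩
      apply Set.eq_singleton_iff_unique_mem.2
      exact ⟨⟨rfl, hg n hn, n, hn, rfl⟩, fun z hz => hz.1⟩
    have h3 : A ⊆ (fun n => p n (g n)) ⁻¹' (K ∩ D) := by
      intro n hn
      exact ⟨hg n hn, n, hn, rfl⟩
    refine (Set.Finite.preimage ?_ h2).subset h3
    intro n _ n' _ h
    exact (hinj _ _ _ _ h).1
  intro hkR
  let U : ℕ × ℕ → Set (ℕ → Y) := fun q => {x | x 0 = p q.1 q.2 ∧ x (q.1 + 1) = p q.2 0}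
  have hU : ∀ q, IsClopen (U q) := by
    intro q
    have h1 : ∀ i n k, IsClopen {x : ℕ → Y | x i = p n k} := by
      intro i n k
      have hc : Continuous fun x : ℕ → Y => x i := continuous_apply i
      exact ⟨(hclosed n k).preimage hc, (hopen n k).preimage hc⟩
    exact (h1 _ _ _).inter (h1 _ _ _)
  let f : (ℕ → Y) → ℝ := (⋃ q, U q).indicator fun _ => 1
  have hf : Continuous f := by
    refine hkR f fun K hK => ?_
    -- the finitely many members meeting `K`
    have h1 : {n | ∃ k, p n k ∈ (fun x : ℕ → Y => x 0) '' K}.Finite :=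
      hcomp _ (hK.image (continuous_apply 0))
    have h2 : ∀ n, {k | p k 0 ∈ (fun x : ℕ → Y => x (n + 1)) '' K}.Finite := by
      intro n
      refine (hcomp _ (hK.image (continuous_apply (n + 1)))).subset ?_
      intro k hk
      exact ⟨0, hk⟩
    have h3 : {q : ℕ × ℕ | (K ∩ U q).Nonempty}.Finite := by
      have h4 : (⋃ n ∈ {n | ∃ k, p n k ∈ (fun x : ℕ → Y => x 0) '' K},
          (fun k => (n, k)) '' {k | p k 0 ∈ (fun x : ℕ → Y => x (n + 1)) '' K}).Finite :=
        h1.biUnion fun n _ => (h2 n).image _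
      refine h4.subset ?_
      rintro ⟨n, k⟩ ⟨x, hxK, hx0, hxn⟩
      simp only [mem_iUnion]
      exact ⟨n, ⟨k, x, hxK, hx0⟩, k, ⟨x, hxK, hxn⟩, rfl⟩
    set F := {q : ℕ × ℕ | (K ∩ U q).Nonempty} with hF
    have h5 : IsClopen (⋃ q ∈ F, U q) := h3.isClopen_biUnion fun q _ => hU q
    have h6 : Continuous ((⋃ q ∈ F, U q).indicator fun _ : ℕ → Y => (1 : ℝ)) :=
      h5.continuous_indicator continuous_const
    refine h6.continuousOn.congr ?_
    intro x hx
    by_cases hxU : x ∈ ⋃ q, U q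
    · have h7 : x ∈ ⋃ q ∈ F, U q := by
        obtain ⟨q, hq⟩ := mem_iUnion.1 hxU
        simp only [mem_iUnion]
        exact ⟨q, ⟨x, hx, hq⟩, hq⟩
      simp only [f]
      rw [indicator_of_mem hxU, indicator_of_mem h7]
    · have h7 : x ∉ ⋃ q ∈ F, U q := by
        intro h
        simp only [mem_iUnion] at h
        obtain ⟨q, -, hq⟩ := h
        exact hxU (mem_iUnion.2 ⟨q, hq⟩)
      simp only [f]
      rw [indicator_of_notMem hxU, indicator_of_notMem h7]
  -- discontinuity at `(inf, inf, …)`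
  have h0 : f (fun _ => inf) = 0 := by
    refine indicator_of_notMem ?_ _
    intro h
    obtain ⟨q, hq⟩ := mem_iUnion.1 h
    exact hne _ _ hq.1
  have hopen1 : IsOpen {x | f x < 1 / 2} := isOpen_lt hf continuous_const
  obtain ⟨I, u, hu, hsub⟩ := isOpen_pi_iff.1 hopen1 (fun _ => inf) (by
    rw [mem_ofPred_eq, h0]; norm_num)
  obtain ⟨N, hN⟩ : ∃ N, ∀ i ∈ I, i ≤ N := ⟨I.sup id, fun i hi => Finset.le_sup (f := id) hi⟩
  let W : Set Y := if 0 ∈ I then u 0 else univ
  have hW : IsOpen W ∧ inf ∈ W := by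
    by_cases h : 0 ∈ I
    · simp only [W, if_pos h]
      exact hu 0 h
    · simp only [W, if_neg h]
      exact ⟨isOpen_univ, trivial⟩
  obtain ⟨n, hn, k, hk⟩ := hacc W hW.1 hW.2 N
  let x : ℕ → Y := fun i => if i = 0 then p n k else if i = n + 1 then p k 0 else inf
  have hx0 : x 0 = p n k := if_pos rfl
  have hxn : x (n + 1) = p k 0 := by
    simp only [x]
    rw [if_neg (Nat.succ_ne_zero n)]
    simp
  have hxI : x ∈ (I : Set ℕ).pi u := by
    intro i hi
    by_cases h : i = 0
    · subst h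
      rw [hx0]
      have hi' : 0 ∈ I := hi
      simp only [W, if_pos hi'] at hk
      exact hk
    · have h' : i ≠ n + 1 := by
        have := hN i hi
        omega
      simp only [x, if_neg h, if_neg h']
      exact (hu i hi).2
  have h1 := hsub hxI
  have h2 : f x = 1 := by
    refine indicator_of_mem (mem_iUnion.2 ⟨(n, k), ?_⟩) _
    exact ⟨hx0, hxn⟩
  rw [mem_ofPred_eq, h2] at h1
  norm_num at h1

/-- Neither the countable power of the Arens space `S₂` nor the countable power of the sequential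
fan `S_ω` is a `k_ℝ`-space. -/
theorem result : ¬ IsKR (ℕ → Arens) ∧ ¬ IsKR (ℕ → Fan) := by
  constructor
  · refine not_kR Arens.inf Arens.b ?_ ?_ ?_ ?_ ?_ ?_
    · intro n k
      rw [isOpen_arens]
      refine ⟨fun m h => ?_, fun h => ?_⟩
      · exact absurd h (by simp)
      · exact absurd h (by simp)
    · intro n k
      rw [← isOpen_compl_iff, isOpen_arens]
      refine ⟨fun m _ => ⟨k + 1, fun l hl h => ?_⟩, fun _ => ⟨0, fun m _ h => ?_⟩⟩
      · have h' := Arens.b.inj (mem_singleton_iff.1 h)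
        omega
      · exact absurd (mem_singleton_iff.1 h) (by simp)
    · intro n k n' k' h
      exact Arens.b.inj h
    · intro A g
      rw [← isOpen_compl_iff, isOpen_arens]
      refine ⟨fun m _ => ⟨g m + 1, fun l hl h => ?_⟩, fun _ => ⟨0, fun m _ h => ?_⟩⟩
      · obtain ⟨n, -, hn⟩ := h
        obtain ⟨rfl, rfl⟩ := Arens.b.inj hn
        omega
      · obtain ⟨n, -, hn⟩ := h
        exact absurd hn (by simp)
    · intro n k h
      exact absurd h (by simp)
    · intro W hW hinf N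
      obtain ⟨h1, h2⟩ := isOpen_arens.1 hW
      obtain ⟨l, hl⟩ := h2 hinf
      obtain ⟨k, hk⟩ := h1 (max l N) (hl _ (le_max_left _ _))
      exact ⟨max l N, le_max_right _ _, k, hk k le_rfl⟩
  · refine not_kR (Y := Fan) (none : Option (ℕ × ℕ))
      (fun n k => (some (n, k) : Option (ℕ × ℕ))) ?_ ?_ ?_ ?_ ?_ ?_
    · intro n k
      rw [isOpen_fan]
      intro h
      exact absurd (mem_singleton_iff.1 h) (by simp)
    · intro n k
      rw [← isOpen_compl_iff, isOpen_fan]
      refine fun _ => ⟨fun _ => k + 1, fun l m hm h => ?_⟩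
      change k + 1 ≤ m at hm
      have h' := Option.some.inj (mem_singleton_iff.1 h)
      simp only [Prod.mk.injEq] at h'
      omega
    · intro n k n' k' h
      have h' := Option.some.inj h
      simpa using h'
    · intro A g
      rw [← isOpen_compl_iff, isOpen_fan]
      refine fun _ => ⟨fun n => g n + 1, fun l m hm h => ?_⟩
      change g l + 1 ≤ m at hm
      obtain ⟨n, -, hn⟩ := h
      have h' := Option.some.inj hn
      simp only [Prod.mk.injEq] at h'
      obtain ⟨rfl, rfl⟩ := h'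
      omega
    · intro n k h
      exact absurd h (by simp)
    · intro W hW hinf N
      obtain ⟨g, hg⟩ := isOpen_fan.1 hW hinf
      exact ⟨N, le_rfl, g N, hg N _ le_rfl⟩

end Pool.Agent.Results.MP_d55beb_gt.NotKR
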